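import Mathlib

set_option autoImplicit false

namespace Q125.Bic

variable {V : Type} [DecidableEq V]

/-- number of arcs entering `X` -/
def rho (F : Finset (V × V)) (X : Finset V) : ℕ :=
  (F.filter fun e => e.1 ∉ X ∧ e.2 ∈ X).card

/-- number of arcs leaving `X` -/
def del (F : Finset (V × V)) (X : Finset V) : ℕ :=
  (F.filter fun e => e.1 ∈ X ∧ e.2 ∉ X).card

/-- all arcs reversed -/
def rev (F : Finset (V × V)) : Finset (V × V) := F.image Prod.swap

theorem mem_rev {F : Finset (V × V)} {e : V × V} : e ∈ rev F ↔ e.swap ∈ F := by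
  unfold rev
  constructor
  · intro h
    obtain ⟨f, hf, rfl⟩ := Finset.mem_image.mp h
    simpa using hf
  · intro h
    exact Finset.mem_image.mpr ⟨e.swap, h, Prod.swap_swap e⟩

theorem rev_rev (F : Finset (V × V)) : rev (rev F) = F := by
  ext e
  rw [mem_rev, mem_rev, Prod.swap_swap]

theorem rho_rev (F : Finset (V × V)) (X : Finset V) : rho (rev F) X = del F X := by
  unfold rho del rev
  rw [Finset.filter_image, Finset.card_image_of_injective _ Prod.swap_injective]
  congr 1
  ext e
  simp only [Finset.mem_filter, Prod.fst_swap, Prod.snd_swap]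
  tauto

theorem del_rev (F : Finset (V × V)) (X : Finset V) : del (rev F) X = rho F X := by
  rw [← rho_rev, rev_rev]

theorem rho_submod (F : Finset (V × V)) (X Y : Finset V) :
    rho F (X ∩ Y) + rho F (X ∪ Y) ≤ rho F X + rho F Y := by
  unfold rho
  simp only [Finset.card_filter]
  rw [← Finset.sum_add_distrib, ← Finset.sum_add_distrib]
  apply Finset.sum_le_sum
  intro e _
  by_cases h1 : e.1 ∈ X <;> by_cases h2 : e.2 ∈ X <;> by_cases h3 : e.1 ∈ Y <;>
    by_cases h4 : e.2 ∈ Y <;> simp [h1, h2, h3, h4]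

theorem rho_cross (F : Finset (V × V)) (X Y : Finset V) :
    rho F (X \ Y) + del F (Y \ X) ≤ rho F X + del F Y := by
  unfold rho del
  simp only [Finset.card_filter]
  rw [← Finset.sum_add_distrib, ← Finset.sum_add_distrib]
  apply Finset.sum_le_sum
  intro e _
  by_cases h1 : e.1 ∈ X <;> by_cases h2 : e.2 ∈ X <;> by_cases h3 : e.1 ∈ Y <;>
    by_cases h4 : e.2 ∈ Y <;> simp [h1, h2, h3, h4]

/-- `F` is a simple digraph on the vertex set `W` -/
def Within (W : Finset V) (F : Finset (V × V)) : Prop :=
  ∀ e ∈ F, e.1 ∈ W ∧ e.2 ∈ W ∧ e.1 ≠ e.2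

/-- `F` is 2-arc-strong on `W` -/
def S2 (W : Finset V) (F : Finset (V × V)) : Prop :=
  ∀ X ⊆ W, X.Nonempty → X ≠ W → 2 ≤ rho F X

/-- every arc enters a tight set -/
def Crit (W : Finset V) (F : Finset (V × V)) : Prop :=
  ∀ e ∈ F, ∃ X ⊆ W, e.1 ∉ X ∧ e.2 ∈ X ∧ rho F X = 2

theorem Within.rev {W : Finset V} {F : Finset (V × V)} (h : Within W F) : Within W (rev F) := by
  intro e he
  have := h _ (mem_rev.mp he)
  simp only [Prod.fst_swap, Prod.snd_swap] at this
  exact ⟨this.2.1, this.1, this.2.2.symm⟩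

/-- the arcs leaving `X` are the arcs entering the complement -/
theorem del_eq {W : Finset V} {F : Finset (V × V)} (h : Within W F) {X : Finset V} :
    del F X = rho F (W \ X) := by
  unfold rho del
  congr 1
  apply Finset.filter_congr
  intro e he
  have := h e he
  simp only [Finset.mem_sdiff, not_and, not_not]
  tauto

theorem rho_eq {W : Finset V} {F : Finset (V × V)} (h : Within W F) {X : Finset V} :
    rho F X = del F (W \ X) := by
  unfold rho del
  congr 1
  apply Finset.filter_congr
  intro e he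
  have := h e he
  simp only [Finset.mem_sdiff, not_and, not_not]
  tauto

theorem S2.del_le {W : Finset V} {F : Finset (V × V)} (hW : Within W F) (h : S2 W F)
    {X : Finset V} (hX : X ⊆ W) (hne : X.Nonempty) (hne' : X ≠ W) : 2 ≤ del F X := by
  rw [del_eq hW]
  apply h _ Finset.sdiff_subset
  · rw [Finset.sdiff_nonempty]
    intro hc
    exact hne' (Finset.Subset.antisymm hX hc)
  · intro hc
    obtain ⟨x, hx⟩ := hne
    have : x ∈ W \ X := by rw [hc]; exact hX hx
    exact (Finset.mem_sdiff.mp this).2 hx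

theorem S2.rev {W : Finset V} {F : Finset (V × V)} (hW : Within W F) (h : S2 W F) :
    S2 W (rev F) := by
  intro X hX hne hne'
  rw [rho_rev]
  exact h.del_le hW hX hne hne'

end Q125.Bic
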