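import Mathlib
import Pool.Agent.Q125.Bic.Cuts

set_option autoImplicit false

namespace Q125.Bic

variable {V : Type} [DecidableEq V]

/-- tight sets avoiding `r` and containing `v` -/
def Tin (W : Finset V) (F : Finset (V × V)) (r v : V) : Finset (Finset V) :=
  W.powerset.filter fun X => r ∉ X ∧ v ∈ X ∧ rho F X = 2

theorem mem_Tin {W : Finset V} {F : Finset (V × V)} {r v : V} {X : Finset V} :
    X ∈ Tin W F r v ↔ X ⊆ W ∧ r ∉ X ∧ v ∈ X ∧ rho F X = 2 := by
  simp [Tin]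

theorem inter_mem_Tin {W : Finset V} {F : Finset (V × V)} {r v : V} (hr : r ∈ W) (hS : S2 W F)
    {X Y : Finset V} (hX : X ∈ Tin W F r v) (hY : Y ∈ Tin W F r v) : X ∩ Y ∈ Tin W F r v := by
  rw [mem_Tin] at *
  obtain ⟨hX1, hX2, hX3, hX4⟩ := hX
  obtain ⟨hY1, hY2, hY3, hY4⟩ := hY
  have h1 : 2 ≤ rho F (X ∩ Y) := by
    apply hS _ (Finset.inter_subset_left.trans hX1) ⟨v, Finset.mem_inter.mpr ⟨hX3, hY3⟩⟩
    intro hc
    rw [← hc] at hr
    exact hX2 (Finset.mem_inter.mp hr).1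
  have h2 : 2 ≤ rho F (X ∪ Y) := by
    apply hS _ (Finset.union_subset hX1 hY1) ⟨v, Finset.mem_union_left _ hX3⟩
    intro hc
    rw [← hc] at hr
    rcases Finset.mem_union.mp hr with h | h
    · exact hX2 h
    · exact hY2 h
  have h3 := rho_submod F X Y
  refine ⟨Finset.inter_subset_left.trans hX1, fun h => hX2 (Finset.mem_inter.mp h).1,
    Finset.mem_inter.mpr ⟨hX3, hY3⟩, by omega⟩

/-- `X` is the least tight set containing `v` -/
def IsMin (W : Finset V) (F : Finset (V × V)) (r v : V) (X : Finset V) : Prop :=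
  X ∈ Tin W F r v ∧ ∀ Y ∈ Tin W F r v, X ⊆ Y

theorem exists_isMin {W : Finset V} {F : Finset (V × V)} {r v : V} (hr : r ∈ W) (hS : S2 W F)
    (h : (Tin W F r v).Nonempty) : ∃ X, IsMin W F r v X := by
  obtain ⟨X, hX, hmin⟩ := Finset.exists_min_image (Tin W F r v) Finset.card h
  refine ⟨X, hX, fun Y hY => ?_⟩
  have h1 := hmin _ (inter_mem_Tin hr hS hX hY)
  have h2 : X ∩ Y = X := Finset.eq_of_subset_of_card_le Finset.inter_subset_left h1
  rw [← h2]
  exact Finset.inter_subset_right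

open Classical in
/-- arcs entering a tight set that avoids `r` -/
noncomputable def Ein (W : Finset V) (F : Finset (V × V)) (r : V) : Finset (V × V) :=
  F.filter fun e => ∃ X ∈ Tin W F r e.2, e.1 ∉ X

theorem mem_Ein {W : Finset V} {F : Finset (V × V)} {r : V} {e : V × V} :
    e ∈ Ein W F r ↔ e ∈ F ∧ ∃ X ∈ Tin W F r e.2, e.1 ∉ X := by
  simp [Ein]

theorem fiber_le {W : Finset V} {F : Finset (V × V)} {r : V} (hr : r ∈ W) (hS : S2 W F) (v : V) :
    ((Ein W F r).filter fun e => e.2 = v).card ≤ 2 := by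
  rcases Finset.eq_empty_or_nonempty ((Ein W F r).filter fun e => e.2 = v) with h | h
  · rw [h]; simp
  · obtain ⟨e, he⟩ := h
    rw [Finset.mem_filter, mem_Ein] at he
    obtain ⟨⟨_, X, hX, _⟩, rfl⟩ := he
    obtain ⟨Y, hY, hmin⟩ := exists_isMin hr hS ⟨X, hX⟩
    have h2 : rho F Y = 2 := (mem_Tin.mp hY).2.2.2
    rw [← h2]
    apply Finset.card_le_card
    intro f hf
    rw [Finset.mem_filter, mem_Ein] at hf
    obtain ⟨⟨hf1, Z, hZ, hfZ⟩, hf2⟩ := hf
    rw [hf2] at hZ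
    rw [Finset.mem_filter]
    exact ⟨hf1, fun hc => hfZ (hmin Z hZ hc), by rw [hf2]; exact (mem_Tin.mp hY).2.2.1⟩

theorem Ein_mapsTo {W : Finset V} {F : Finset (V × V)} {r : V} (hW : Within W F) :
    ∀ e ∈ Ein W F r, e.2 ∈ W.erase r := by
  intro e he
  rw [mem_Ein] at he
  obtain ⟨he, X, hX, _⟩ := he
  rw [mem_Tin] at hX
  exact Finset.mem_erase.mpr ⟨fun hc => hX.2.1 (hc ▸ hX.2.2.1), (hW e he).2.1⟩

theorem card_Ein {W : Finset V} {F : Finset (V × V)} {r : V} (hW : Within W F) :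
    (Ein W F r).card = ∑ v ∈ W.erase r, ((Ein W F r).filter fun e => e.2 = v).card :=
  Finset.card_eq_sum_card_fiberwise (f := Prod.snd) (Ein_mapsTo hW)

theorem card_Ein_le {W : Finset V} {F : Finset (V × V)} {r : V} (hr : r ∈ W) (hW : Within W F)
    (hS : S2 W F) : (Ein W F r).card ≤ 2 * (W.card - 1) := by
  rw [card_Ein hW]
  calc _ ≤ ∑ v ∈ W.erase r, 2 := Finset.sum_le_sum fun v _ => fiber_le hr hS v
    _ = 2 * (W.card - 1) := by rw [Finset.sum_const, Finset.card_erase_of_mem hr]; simp [mul_comm]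

theorem fiber_eq {W : Finset V} {F : Finset (V × V)} {r : V} (hr : r ∈ W) (hW : Within W F)
    (hS : S2 W F) (h : (Ein W F r).card = 2 * (W.card - 1)) {v : V} (hv : v ∈ W) (hvr : v ≠ r) :
    ((Ein W F r).filter fun e => e.2 = v).card = 2 := by
  by_contra hne
  have hlt : ((Ein W F r).filter fun e => e.2 = v).card < 2 :=
    lt_of_le_of_ne (fiber_le hr hS v) hne
  have : (Ein W F r).card < 2 * (W.card - 1) := by
    rw [card_Ein hW]
    calc _ < ∑ v ∈ W.erase r, 2 := Finset.sum_lt_sum (fun v _ => fiber_le hr hS v)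
          ⟨v, Finset.mem_erase.mpr ⟨hvr, hv⟩, hlt⟩
      _ = 2 * (W.card - 1) := by
        rw [Finset.sum_const, Finset.card_erase_of_mem hr]; simp [mul_comm]
  omega

/-- the growth step -/
theorem step {W : Finset V} {F : Finset (V × V)} {r : V} (hr : r ∈ W) (hW : Within W F)
    (hS : S2 W F) (hA : ∀ v ∈ W, v ≠ r → ((Ein W F r).filter fun e => e.2 = v).card = 2)
    (hB : ∀ v ∈ W, v ≠ r → ((Ein W (rev F) r).filter fun e => e.2 = v).card = 2)
    (hdis : ∀ e ∈ Ein W F r, e.swap ∉ Ein W (rev F) r) {v : V} {X : Finset V}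
    (hv : v ∈ W) (hvr : v ≠ r) (hX : IsMin W F r v X) :
    ∃ p Y, p ∈ W ∧ p ≠ r ∧ IsMin W (rev F) r p Y ∧ X.card < Y.card := by
  obtain ⟨e, f, hef, hfe⟩ := Finset.card_eq_two.mp (hA v hv hvr)
  have he : e ∈ (Ein W F r).filter fun e => e.2 = v := by rw [hfe]; simp
  have hf : f ∈ (Ein W F r).filter fun e => e.2 = v := by rw [hfe]; simp
  have key : ∃ g ∈ Ein W F r, g.2 = v ∧ g.1 ≠ r := by
    by_cases h1 : e.1 = r
    · refine ⟨f, (Finset.mem_filter.mp hf).1, (Finset.mem_filter.mp hf).2, fun h2 => hef ?_⟩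
      exact Prod.ext (h1.trans h2.symm)
        ((Finset.mem_filter.mp he).2.trans (Finset.mem_filter.mp hf).2.symm)
    · exact ⟨e, (Finset.mem_filter.mp he).1, (Finset.mem_filter.mp he).2, h1⟩
  obtain ⟨g, hg, hgv, hgr⟩ := key
  have hgF := (mem_Ein.mp hg).1
  have hgW := hW g hgF
  have hgX : g.1 ∉ X := by
    obtain ⟨_, Z, hZ, hgZ⟩ := mem_Ein.mp hg
    rw [hgv] at hZ
    exact fun hc => hgZ (hX.2 Z hZ hc)
  have hSr := hS.rev hW
  -- least tight out-set of the tail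
  have hne : (Tin W (rev F) r g.1).Nonempty := by
    have h2 := hB g.1 hgW.1 hgr
    have : ((Ein W (rev F) r).filter fun e => e.2 = g.1).Nonempty := by
      rw [← Finset.card_pos, h2]; norm_num
    obtain ⟨k, hk⟩ := this
    rw [Finset.mem_filter, mem_Ein] at hk
    obtain ⟨⟨_, Z, hZ, _⟩, hk2⟩ := hk
    exact ⟨Z, hk2 ▸ hZ⟩
  obtain ⟨Y, hY⟩ := exists_isMin hr hSr hne
  refine ⟨g.1, Y, hgW.1, hgr, hY, ?_⟩
  have hYm := mem_Tin.mp hY.1
  have hXm := mem_Tin.mp hX.1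
  have hvY : v ∈ Y := by
    by_contra hc
    apply hdis g hg
    rw [mem_Ein]
    refine ⟨mem_rev.mpr (by rwa [Prod.swap_swap]), Y, hY.1, ?_⟩
    simpa [hgv] using hc
  have hdelY : del F Y = 2 := by rw [← rho_rev]; exact hYm.2.2.2
  have hsub : X ⊆ Y := by
    by_contra hc
    have hne1 : (X \ Y).Nonempty := Finset.sdiff_nonempty.mpr hc
    have hne2 : g.1 ∈ Y \ X := Finset.mem_sdiff.mpr ⟨hYm.2.2.1, hgX⟩
    have h1 : 2 ≤ rho F (X \ Y) := by
      apply hS _ (Finset.sdiff_subset.trans hXm.1) hne1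
      intro hh
      rw [← hh] at hr
      exact hXm.2.1 (Finset.mem_sdiff.mp hr).1
    have h2 : 2 ≤ rho (rev F) (Y \ X) := by
      apply hSr _ (Finset.sdiff_subset.trans hYm.1) ⟨_, hne2⟩
      intro hh
      rw [← hh] at hr
      exact hYm.2.1 (Finset.mem_sdiff.mp hr).1
    have h3 := rho_cross F X Y
    rw [hXm.2.2.2, hdelY, ← rho_rev F (Y \ X)] at h3
    have h4 : Y \ X ∈ Tin W (rev F) r g.1 := by
      rw [mem_Tin]
      exact ⟨Finset.sdiff_subset.trans hYm.1, fun h => hYm.2.1 (Finset.mem_sdiff.mp h).1, hne2,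
        by omega⟩
    have h5 := hY.2 _ h4 hvY
    exact (Finset.mem_sdiff.mp h5).2 hXm.2.2.1
  exact Finset.card_lt_card ⟨hsub, fun hc => hgX (hc hYm.2.2.1)⟩

/-- A minimal 2-arc-strong simple digraph on `n` vertices has at most `4 (n - 1) - 1` arcs. -/
theorem base {W : Finset V} {F : Finset (V × V)} (hW : Within W F) (hS : S2 W F)
    (hC : Crit W F) (h2 : 2 ≤ W.card) : F.card + 1 ≤ 4 * (W.card - 1) := by
  obtain ⟨r, hr⟩ : W.Nonempty := by rw [← Finset.card_pos]; omega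
  by_contra hcon
  have hWr := hW.rev
  have hSr := hS.rev hW
  have hsub : F ⊆ Ein W F r ∪ rev (Ein W (rev F) r) := by
    intro e he
    obtain ⟨X, hX, h1, h3, h4⟩ := hC e he
    have heW := hW e he
    rw [Finset.mem_union]
    by_cases hrX : r ∈ X
    · right
      rw [mem_rev, mem_Ein]
      refine ⟨mem_rev.mpr (by rwa [Prod.swap_swap]), W \ X, ?_, ?_⟩
      · rw [mem_Tin]
        refine ⟨Finset.sdiff_subset, fun h => (Finset.mem_sdiff.mp h).2 hrX, ?_, ?_⟩
        · simp [heW.1, h1]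
        · rw [rho_rev, ← rho_eq hW, h4]
      · simp [h3]
    · left
      rw [mem_Ein]
      exact ⟨he, X, mem_Tin.mpr ⟨hX, hrX, h3, h4⟩, h1⟩
  have hcardrev : (rev (Ein W (rev F) r)).card = (Ein W (rev F) r).card :=
    Finset.card_image_of_injective _ Prod.swap_injective
  have hA := card_Ein_le hr hW hS
  have hB := card_Ein_le hr hWr hSr
  have hle := Finset.card_le_card hsub
  have hui := Finset.card_union_add_card_inter (Ein W F r) (rev (Ein W (rev F) r))
  have hAe : (Ein W F r).card = 2 * (W.card - 1) := by omega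
  have hBe : (Ein W (rev F) r).card = 2 * (W.card - 1) := by omega
  have hI : Ein W F r ∩ rev (Ein W (rev F) r) = ∅ := by
    rw [← Finset.card_eq_zero]; omega
  have hdis : ∀ e ∈ Ein W F r, e.swap ∉ Ein W (rev F) r := by
    intro e he hc
    have : e ∈ Ein W F r ∩ rev (Ein W (rev F) r) :=
      Finset.mem_inter.mpr ⟨he, mem_rev.mpr hc⟩
    rw [hI] at this
    simp at this
  have hdis' : ∀ e ∈ Ein W (rev F) r, e.swap ∉ Ein W (rev (rev F)) r := by
    intro e he hc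
    rw [rev_rev] at hc
    exact hdis _ hc (by rwa [Prod.swap_swap])
  have fA : ∀ v ∈ W, v ≠ r → ((Ein W F r).filter fun e => e.2 = v).card = 2 :=
    fun v hv hvr => fiber_eq hr hW hS hAe hv hvr
  have fB : ∀ v ∈ W, v ≠ r → ((Ein W (rev F) r).filter fun e => e.2 = v).card = 2 :=
    fun v hv hvr => fiber_eq hr hWr hSr hBe hv hvr
  have fA' : ∀ v ∈ W, v ≠ r → ((Ein W (rev (rev F)) r).filter fun e => e.2 = v).card = 2 := by
    rw [rev_rev]; exact fA
  -- a largest least tight set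
  classical
  let M : Finset (Finset V) := W.powerset.filter fun X =>
    (∃ v ∈ W, v ≠ r ∧ IsMin W F r v X) ∨ (∃ v ∈ W, v ≠ r ∧ IsMin W (rev F) r v X)
  have hM : M.Nonempty := by
    have hne : (W.erase r).Nonempty := by
      rw [← Finset.card_pos, Finset.card_erase_of_mem hr]; omega
    obtain ⟨v, hv⟩ := hne
    obtain ⟨hvr, hvW⟩ := Finset.mem_erase.mp hv
    have h3 := fA v hvW hvr
    have : ((Ein W F r).filter fun e => e.2 = v).Nonempty := by
      rw [← Finset.card_pos, h3]; norm_num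
    obtain ⟨k, hk⟩ := this
    rw [Finset.mem_filter, mem_Ein] at hk
    obtain ⟨⟨_, Z, hZ, _⟩, hk2⟩ := hk
    rw [hk2] at hZ
    obtain ⟨X, hX⟩ := exists_isMin hr hS ⟨Z, hZ⟩
    exact ⟨X, Finset.mem_filter.mpr ⟨Finset.mem_powerset.mpr (mem_Tin.mp hX.1).1,
      Or.inl ⟨v, hvW, hvr, hX⟩⟩⟩
  obtain ⟨X, hX, hmax⟩ := Finset.exists_max_image M Finset.card hM
  rcases (Finset.mem_filter.mp hX).2 with ⟨v, hvW, hvr, hmin⟩ | ⟨v, hvW, hvr, hmin⟩
  · obtain ⟨p, Y, hp, hpr, hY, hlt⟩ := step hr hW hS fA fB hdis hvW hvr hmin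
    have := hmax Y (Finset.mem_filter.mpr ⟨Finset.mem_powerset.mpr (mem_Tin.mp hY.1).1,
      Or.inr ⟨p, hp, hpr, hY⟩⟩)
    omega
  · obtain ⟨p, Y, hp, hpr, hY, hlt⟩ := step hr hWr hSr fB fA' hdis' hvW hvr hmin
    rw [rev_rev] at hY
    have := hmax Y (Finset.mem_filter.mpr ⟨Finset.mem_powerset.mpr (mem_Tin.mp hY.1).1,
      Or.inl ⟨p, hp, hpr, hY⟩⟩)
    omega

end Q125.Bic
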