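import Mathlib

set_option autoImplicit false

namespace Q125.Bic

variable {V : Type} [DecidableEq V]

/-- The underlying simple undirected graph of the digraph with arc set `E`:
`u` and `v ≠ u` are adjacent iff `(u, v) ∈ E` or `(v, u) ∈ E`. -/
def underlying (E : Finset (V × V)) : SimpleGraph V :=
  SimpleGraph.fromRel fun u v => (u, v) ∈ E

/-- For every ordered pair of vertices there is a directed path from the first to the second. -/
def StronglyConnected (E : Finset (V × V)) : Prop :=
  ∀ u v, Relation.ReflTransGen (fun a b => (a, b) ∈ E) u v

/-- `G` is connected and deleting any single vertex leaves it connected. -/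
def Biconnected (G : SimpleGraph V) : Prop :=
  G.Connected ∧ ∀ x : V, (G.induce {x}ᶜ).Connected

/-- The digraph is strongly connected and its underlying graph is biconnected. -/
def StronglyBiconnected (E : Finset (V × V)) : Prop :=
  StronglyConnected E ∧ Biconnected (underlying E)

/-- The digraph is strongly biconnected, has at least three vertices, and is still strongly
biconnected after the deletion of any one arc. -/
def TwoEdgeStronglyBiconnected [Fintype V] (E : Finset (V × V)) : Prop :=
  StronglyBiconnected E ∧ 3 ≤ Fintype.card V ∧ ∀ e ∈ E, StronglyBiconnected (E.erase e)

/-- A 2-edge-strongly biconnected digraph that loses this property when any one arc is deleted. -/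
def IsMinimal [Fintype V] (E : Finset (V × V)) : Prop :=
  TwoEdgeStronglyBiconnected E ∧ ∀ e ∈ E, ¬ TwoEdgeStronglyBiconnected (E.erase e)

end Q125.Bic
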