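import Mathlib
import Pool.Agent.Q125.Bic.Base

set_option autoImplicit false

namespace Q125.Bic

variable {V : Type} [DecidableEq V]

/-- `e` joins `A` to a vertex outside `A` other than `x` -/
def Cross (x : V) (A : Finset V) (e : V × V) : Prop :=
  (e.1 ∈ A ∧ e.2 ∉ A ∧ e.2 ≠ x) ∨ (e.2 ∈ A ∧ e.1 ∉ A ∧ e.1 ≠ x)

theorem Cross.swap {x : V} {A : Finset V} {e : V × V} (h : Cross x A e) : Cross x A e.swap := by
  unfold Cross at *
  simp only [Prod.fst_swap, Prod.snd_swap]
  tauto

/-- the arcs inside `W` -/
def res (W : Finset V) (F : Finset (V × V)) : Finset (V × V) :=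
  F.filter fun e => e.1 ∈ W ∧ e.2 ∈ W

theorem mem_res {W : Finset V} {F : Finset (V × V)} {e : V × V} :
    e ∈ res W F ↔ e ∈ F ∧ e.1 ∈ W ∧ e.2 ∈ W := by
  simp [res]

section piece

variable {W A : Finset V} {F : Finset (V × V)} {x : V}

theorem res_within (hW : Within W F) (W' : Finset V) : Within W' (res W' F) := by
  intro e he
  rw [mem_res] at he
  exact ⟨he.2.1, he.2.2, (hW e he.1).2.2⟩

theorem res_S2 (hW : Within W F) (hS : S2 W F) (hx : x ∈ W) (hA : A ⊆ W)
    (hno : ∀ e ∈ F, ¬ Cross x A e) : S2 (insert x A) (res (insert x A) F) := by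
  intro X hX hne hne'
  have hW'W : insert x A ⊆ W := Finset.insert_subset hx hA
  by_cases hxX : x ∈ X
  · have h1 : 2 ≤ rho F (X ∪ (W \ insert x A)) := by
      apply hS _ (Finset.union_subset (hX.trans hW'W) Finset.sdiff_subset)
        (hne.mono Finset.subset_union_left)
      intro hc
      apply hne'
      apply Finset.Subset.antisymm hX
      intro y hy
      have : y ∈ X ∪ (W \ insert x A) := by rw [hc]; exact hW'W hy
      rcases Finset.mem_union.mp this with h | h
      · exact h
      · exact absurd hy (Finset.mem_sdiff.mp h).2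
    refine h1.trans (Finset.card_le_card ?_)
    intro e he
    rw [Finset.mem_filter] at he ⊢
    obtain ⟨heF, h2, h3⟩ := he
    have heW := hW e heF
    have h4 : e.1 ∈ insert x A := by
      by_contra hc
      exact h2 (Finset.mem_union_right _ (Finset.mem_sdiff.mpr ⟨heW.1, hc⟩))
    have h5 : e.1 ∉ X := fun hc => h2 (Finset.mem_union_left _ hc)
    have h6 : e.1 ∈ A := by
      rcases Finset.mem_insert.mp h4 with h | h
      · exact absurd (h ▸ hxX) h5
      · exact h
    have h7 : e.2 ∈ insert x A := by
      by_contra hc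
      rw [Finset.mem_insert, not_or] at hc
      exact hno e heF (Or.inl ⟨h6, hc.2, hc.1⟩)
    refine ⟨mem_res.mpr ⟨heF, h4, h7⟩, h5, ?_⟩
    rcases Finset.mem_union.mp h3 with h | h
    · exact h
    · exact absurd h7 (Finset.mem_sdiff.mp h).2
  · have hXA : X ⊆ A := by
      intro y hy
      rcases Finset.mem_insert.mp (hX hy) with h | h
      · exact absurd (h ▸ hy) hxX
      · exact h
    have h1 : 2 ≤ rho F X := by
      apply hS _ (hXA.trans hA) hne
      intro hc
      exact hxX (hc ▸ hx)
    refine h1.trans (Finset.card_le_card ?_)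
    intro e he
    rw [Finset.mem_filter] at he ⊢
    obtain ⟨heF, h2, h3⟩ := he
    refine ⟨mem_res.mpr ⟨heF, ?_, hX h3⟩, h2, h3⟩
    by_contra hc
    rw [Finset.mem_insert, not_or] at hc
    exact hno e heF (Or.inr ⟨hXA h3, hc.2, hc.1⟩)

theorem res_Crit {W' : Finset V} (hS' : S2 W' (res W' F))
    (hC : Crit W F) : Crit W' (res W' F) := by
  intro e he
  rw [mem_res] at he
  obtain ⟨X, hX, h1, h2, h3⟩ := hC e he.1
  refine ⟨X ∩ W', Finset.inter_subset_right, fun h => h1 (Finset.mem_inter.mp h).1,
    Finset.mem_inter.mpr ⟨h2, he.2.2⟩, ?_⟩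
  apply le_antisymm
  · rw [← h3]
    apply Finset.card_le_card
    intro f hf
    rw [Finset.mem_filter, mem_res] at hf
    rw [Finset.mem_filter]
    refine ⟨hf.1.1, fun hc => hf.2.1 (Finset.mem_inter.mpr ⟨hc, hf.1.2.1⟩),
      (Finset.mem_inter.mp hf.2.2).1⟩
  · apply hS' _ Finset.inter_subset_right ⟨_, Finset.mem_inter.mpr ⟨h2, he.2.2⟩⟩
    intro hc
    have : e.1 ∈ X ∩ W' := by rw [hc]; exact he.2.1
    exact h1 (Finset.mem_inter.mp this).1

/-- the property of the auxiliary set of pairs -/
def KProp (W : Finset V) (F K : Finset (V × V)) : Prop :=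
  ∀ d ∈ K, ∃ x ∈ W, ∃ A ⊆ W, x ∉ A ∧ d.1 ∈ A ∧ d.2 ∉ A ∧ d.2 ≠ x ∧
    (∀ e ∈ F, ¬ Cross x A e) ∧ ∀ d' ∈ K, Cross x A d' → d' = d ∨ d' = d.swap

theorem res_KProp {W' : Finset V} {K : Finset (V × V)}
    (hS' : S2 W' (res W' F)) (hK : KProp W F K) : KProp W' (res W' F) (res W' K) := by
  intro d hd
  rw [mem_res] at hd
  obtain ⟨x', hx', A', hA', h1, h2, h3, h4, h5, h6⟩ := hK d hd.1
  have hxW' : x' ∈ W' := by
    by_contra hc
    have h7 := hS' (A' ∩ W') Finset.inter_subset_right ⟨_, Finset.mem_inter.mpr ⟨h2, hd.2.1⟩⟩ (by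
      intro hh
      have : d.2 ∈ A' ∩ W' := by rw [hh]; exact hd.2.2
      exact h3 (Finset.mem_inter.mp this).1)
    have h8 : rho (res W' F) (A' ∩ W') = 0 := by
      rw [rho, Finset.card_eq_zero, Finset.filter_eq_empty_iff]
      intro e he hce
      rw [mem_res] at he
      refine h5 e he.1 (Or.inr ⟨(Finset.mem_inter.mp hce.2).1, ?_, ?_⟩)
      · exact fun hh => hce.1 (Finset.mem_inter.mpr ⟨hh, he.2.1⟩)
      · exact fun hh => hc (hh ▸ he.2.1)
    omega
  have hcr : ∀ e : V × V, e.1 ∈ W' → e.2 ∈ W' → Cross x' (A' ∩ W') e → Cross x' A' e := by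
    intro e he1 he2 hce
    rcases hce with ⟨ha, hb, hc⟩ | ⟨ha, hb, hc⟩
    · exact Or.inl ⟨(Finset.mem_inter.mp ha).1, fun hh => hb (Finset.mem_inter.mpr ⟨hh, he2⟩), hc⟩
    · exact Or.inr ⟨(Finset.mem_inter.mp ha).1, fun hh => hb (Finset.mem_inter.mpr ⟨hh, he1⟩), hc⟩
  refine ⟨x', hxW', A' ∩ W', Finset.inter_subset_right, fun h => h1 (Finset.mem_inter.mp h).1,
    Finset.mem_inter.mpr ⟨h2, hd.2.1⟩, fun h => h3 (Finset.mem_inter.mp h).1, h4, ?_, ?_⟩
  · intro e he hce
    rw [mem_res] at he
    exact h5 e he.1 (hcr e he.2.1 he.2.2 hce)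
  · intro e he hce
    rw [mem_res] at he
    exact h6 e he.1 (hcr e he.2.1 he.2.2 hce)

end piece

theorem bound : ∀ (n : ℕ) (W : Finset V) (F K : Finset (V × V)), W.card = n → 2 ≤ W.card →
    Within W F → S2 W F → Crit W F → Within W K → KProp W F K →
    2 * F.card + K.card + 2 ≤ 8 * (W.card - 1) := by
  intro n
  induction n using Nat.strong_induction_on with
  | _ n ih =>
    intro W F K hn h2 hW hS hC hWK hK
    rcases Finset.eq_empty_or_nonempty K with hK0 | ⟨d, hd⟩
    · have := base hW hS hC h2
      rw [hK0, Finset.card_empty]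
      omega
    · obtain ⟨x, hx, A, hA, h1, h3, h4, h5, h6, h7⟩ := hK d hd
      have hdW := hWK d hd
      set B : Finset V := (W \ A).erase x with hB
      have hBW : B ⊆ W := (Finset.erase_subset _ _).trans Finset.sdiff_subset
      have hmemB : ∀ y, y ∈ B ↔ y ∈ W ∧ y ∉ A ∧ y ≠ x := by
        intro y
        rw [hB, Finset.mem_erase, Finset.mem_sdiff]
        tauto
      have hxB : x ∉ B := by rw [hmemB]; tauto
      have hcross : ∀ e : V × V, e.1 ∈ W → e.2 ∈ W → Cross x B e → Cross x A e := by
        intro e he1 he2 hce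
        unfold Cross at *
        simp only [hmemB] at hce
        rcases hce with ⟨⟨_, ha, hb⟩, hc, he⟩ | ⟨⟨_, ha, hb⟩, hc, he⟩
        · right
          refine ⟨?_, ha, hb⟩
          by_contra hh
          exact hc ⟨he2, hh, he⟩
        · left
          refine ⟨?_, ha, hb⟩
          by_contra hh
          exact hc ⟨he1, hh, he⟩
      have hSA := res_S2 hW hS hx hA h6
      have hSB : S2 (insert x B) (res (insert x B) F) := by
        apply res_S2 hW hS hx hBW
        intro e he hce
        exact h6 e he (hcross e (hW e he).1 (hW e he).2.1 hce)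
      have hWA := Finset.insert_subset hx hA
      have hWB := Finset.insert_subset hx hBW
      have hcA : (insert x A).card = A.card + 1 := Finset.card_insert_of_notMem h1
      have hcB : (insert x B).card = B.card + 1 := Finset.card_insert_of_notMem hxB
      have hA1 : 0 < A.card := Finset.card_pos.mpr ⟨_, h3⟩
      have hB1 : 0 < B.card := Finset.card_pos.mpr ⟨d.2, (hmemB _).mpr ⟨hdW.2.1, h4, h5⟩⟩
      have hcard : W.card = A.card + B.card + 1 := by
        have e1 : (W \ A).card = W.card - A.card := Finset.card_sdiff_of_subset hA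
        have e2 : A.card ≤ W.card := Finset.card_le_card hA
        have e3 : B.card = (W \ A).card - 1 :=
          Finset.card_erase_of_mem (Finset.mem_sdiff.mpr ⟨hx, h1⟩)
        omega
      have iA := ih (insert x A).card (by omega) (insert x A) (res (insert x A) F)
        (res (insert x A) K) rfl (by omega) (res_within hW _) hSA (res_Crit hSA hC)
        (res_within hWK _) (res_KProp hSA hK)
      have iB := ih (insert x B).card (by omega) (insert x B) (res (insert x B) F)
        (res (insert x B) K) rfl (by omega) (res_within hW _) hSB (res_Crit hSB hC)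
        (res_within hWK _) (res_KProp hSB hK)
      have hin : ∀ e : V × V, e.1 ∈ W → e.2 ∈ W → ¬ Cross x A e →
          (e.1 ∈ insert x A ∧ e.2 ∈ insert x A) ∨ (e.1 ∈ insert x B ∧ e.2 ∈ insert x B) := by
        intro e he1 he2 hce
        unfold Cross at hce
        simp only [Finset.mem_insert, hmemB]
        tauto
      have hF : F.card ≤ (res (insert x A) F).card + (res (insert x B) F).card := by
        refine (Finset.card_le_card ?_).trans (Finset.card_union_le _ _)
        intro e he
        rw [Finset.mem_union, mem_res, mem_res]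
        rcases hin e (hW e he).1 (hW e he).2.1 (h6 e he) with h | h
        · exact Or.inl ⟨he, h⟩
        · exact Or.inr ⟨he, h⟩
      have hKc : K.card ≤ (res (insert x A) K).card + (res (insert x B) K).card + 2 := by
        have hsub : K ⊆ (res (insert x A) K ∪ res (insert x B) K) ∪ {d, d.swap} := by
          intro e he
          rw [Finset.mem_union, Finset.mem_union, mem_res, mem_res]
          by_cases hce : Cross x A e
          · right
            rcases h7 e he hce with h | h <;> simp [h]
          · left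
            rcases hin e (hWK e he).1 (hWK e he).2.1 hce with h | h
            · exact Or.inl ⟨he, h⟩
            · exact Or.inr ⟨he, h⟩
        have e1 := Finset.card_le_card hsub
        have e2 := Finset.card_union_le (res (insert x A) K ∪ res (insert x B) K) {d, d.swap}
        have e3 := Finset.card_union_le (res (insert x A) K) (res (insert x B) K)
        have e4 : ({d, d.swap} : Finset (V × V)).card ≤ 2 := Finset.card_le_two
        omega
      omega

end Q125.Bic
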