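import Mathlib
import Pool.Agent.Q125.Bic.Split

set_option autoImplicit false

namespace Q125.Bic

variable {V : Type}

section BFS

variable (H : SimpleGraph V)

/-- the chosen representative of the component of `v` -/
noncomputable def root (v : V) : V := Quot.out (H.connectedComponentMk v)

theorem mk_root (v : V) : H.connectedComponentMk (root H v) = H.connectedComponentMk v :=
  Quot.out_eq (H.connectedComponentMk v)

theorem reach_root (v : V) : H.Reachable v (root H v) :=
  (SimpleGraph.ConnectedComponent.exact (mk_root H v)).symm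

theorem root_eq {u v : V} (h : H.Reachable u v) : root H u = root H v := by
  unfold root
  rw [SimpleGraph.ConnectedComponent.sound h]

theorem root_adj {u v : V} (h : H.Adj u v) : root H u = root H v := root_eq H h.reachable

theorem root_root (v : V) : root H (root H v) = root H v := (root_eq H (reach_root H v)).symm

noncomputable def dd (v : V) : ℕ := H.dist v (root H v)

theorem walk_step {v r : V} (p : H.Walk v r) (hv : v ≠ r) :
    ∃ w, H.Adj v w ∧ H.dist w r + 1 ≤ p.length := by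
  cases p with
  | nil => exact absurd rfl hv
  | @cons _ w _ h q =>
    refine ⟨w, h, ?_⟩
    rw [SimpleGraph.Walk.length_cons]
    have := SimpleGraph.dist_le q
    omega

theorem exists_parent {v : V} (hv : v ≠ root H v) :
    ∃ w, H.Adj v w ∧ dd H w < dd H v ∧ ∀ z, H.Adj v z → dd H w ≤ dd H z := by
  obtain ⟨p, hp⟩ := (reach_root H v).exists_walk_length_eq_dist
  obtain ⟨w, h, hq⟩ := walk_step H p hv
  refine ⟨w, h, ?_, ?_⟩
  · unfold dd
    rw [← root_adj H h]
    omega
  · intro z hz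
    obtain ⟨p', hp'⟩ := (reach_root H z).exists_walk_length_eq_dist
    have h1 : H.dist v (root H z) ≤ (SimpleGraph.Walk.cons hz p').length :=
      SimpleGraph.dist_le _
    rw [SimpleGraph.Walk.length_cons, hp', ← root_adj H hz] at h1
    unfold dd
    rw [← root_adj H hz, ← root_adj H h]
    omega

open Classical in
noncomputable def par (v : V) : V :=
  if h : v ≠ root H v then (exists_parent H h).choose else v

theorem par_spec {v : V} (h : v ≠ root H v) :
    H.Adj v (par H v) ∧ dd H (par H v) < dd H v ∧ ∀ z, H.Adj v z → dd H (par H v) ≤ dd H z := by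
  unfold par
  rw [dif_pos h]
  exact (exists_parent H h).choose_spec

theorem side {T : V → Prop} {x : V}
    (hno : ∀ v, T v → v ≠ root H v → T (par H v) ∨ par H v = x) {R w₀ : V} (hR : ¬ T R)
    (hw₀ : T w₀) (hroot : root H w₀ = R) :
    ∀ y, T y → H.Adj x y → par H y = x ∧ y ≠ root H y := by
  classical
  have hex : ∃ n w, T w ∧ root H w = R ∧ dd H w = n := ⟨_, w₀, hw₀, hroot, rfl⟩
  obtain ⟨w, hwT, hwR, hwd⟩ := Nat.find_spec hex
  have hmin : ∀ z, T z → root H z = R → dd H w ≤ dd H z := by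
    intro z hz hzR
    rw [hwd]
    exact Nat.find_min' hex ⟨z, hz, hzR, rfl⟩
  have hwr : w ≠ root H w := by
    intro hc
    rw [hwR] at hc
    exact hR (hc ▸ hwT)
  obtain ⟨h1, h2, _⟩ := par_spec H hwr
  have hpx : par H w = x := by
    rcases hno w hwT hwr with h | h
    · have := hmin _ h (by rw [← root_adj H h1, hwR])
      omega
    · exact h
  intro y hy hxy
  have hxR : root H x = R := by rw [← hpx, ← root_adj H h1, hwR]
  have hyR : root H y = R := by rw [← root_adj H hxy, hxR]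
  have hyr : y ≠ root H y := by
    intro hc
    rw [hyR] at hc
    exact hR (hc ▸ hy)
  refine ⟨?_, hyr⟩
  obtain ⟨h3, h4, h5⟩ := par_spec H hyr
  rcases hno y hy hyr with h | h
  · have h6 := hmin _ h (by rw [← root_adj H h3, hyR])
    have h7 := h5 x hxy.symm
    rw [hpx] at h2
    omega
  · exact h

end BFS

variable [DecidableEq V]

/-- the properties of a scan-first forest `F` of `G` -/
structure IsForest (G F : Finset (V × V)) : Prop where
  sub : F ⊆ G
  sym : ∀ e ∈ F, e.swap ∈ F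
  conn : ∀ e ∈ G, Relation.ReflTransGen (fun a b => (a, b) ∈ F) e.1 e.2
  kill : ∀ (x : V) (A : Finset V), x ∉ A → (∀ e ∈ F, ¬ Cross x A e) → ∀ e ∈ G, e.1 ∈ A →
    e.2 ∉ A → e.2 ≠ x →
    (∀ y ∈ A, (x, y) ∈ G → (x, y) ∈ F) ∨ (∀ y, y ∉ A → y ≠ x → (x, y) ∈ G → (x, y) ∈ F)

theorem exists_forest [Fintype V] [Nonempty V] (G : Finset (V × V)) (hsym : ∀ e ∈ G, e.swap ∈ G)
    (hloop : ∀ e ∈ G, e.1 ≠ e.2) : ∃ F, IsForest G F ∧ F.card + 2 ≤ 2 * Fintype.card V := by
  classical
  let H : SimpleGraph V := SimpleGraph.fromRel fun a b => (a, b) ∈ G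
  have hadj : ∀ a b, H.Adj a b ↔ (a, b) ∈ G := by
    intro a b
    rw [SimpleGraph.fromRel_adj]
    constructor
    · rintro ⟨_, h | h⟩
      · exact h
      · exact hsym _ h
    · intro h
      exact ⟨hloop _ h, Or.inl h⟩
  let S : Finset V := Finset.univ.filter fun v => v ≠ root H v
  let F : Finset (V × V) := (S.image fun v => (v, par H v)) ∪ (S.image fun v => (par H v, v))
  have hmem : ∀ a b, (a, b) ∈ F ↔ (a ≠ root H a ∧ par H a = b) ∨ (b ≠ root H b ∧ par H b = a) := by
    intro a b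
    simp only [F, S, Finset.mem_union, Finset.mem_image, Finset.mem_filter, Finset.mem_univ,
      true_and, Prod.mk.injEq]
    constructor
    · rintro (⟨v, hv, rfl, rfl⟩ | ⟨v, hv, rfl, rfl⟩)
      · exact Or.inl ⟨hv, rfl⟩
      · exact Or.inr ⟨hv, rfl⟩
    · rintro (⟨h1, rfl⟩ | ⟨h1, rfl⟩)
      · exact Or.inl ⟨a, h1, rfl, rfl⟩
      · exact Or.inr ⟨b, h1, rfl, rfl⟩
  have hsymF : ∀ a b, (a, b) ∈ F → (b, a) ∈ F := by
    intro a b h
    rw [hmem] at h ⊢
    tauto
  have hconn : ∀ (n : ℕ) (v : V), dd H v = n →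
      Relation.ReflTransGen (fun a b => (a, b) ∈ F) v (root H v) := by
    intro n
    induction n using Nat.strong_induction_on with
    | _ n ih =>
      intro v hv
      by_cases h : v = root H v
      · rw [← h]
      · obtain ⟨h1, h2, _⟩ := par_spec H h
        have h3 := ih (dd H (par H v)) (hv ▸ h2) _ rfl
        rw [← root_adj H h1] at h3
        exact Relation.ReflTransGen.head ((hmem _ _).mpr (Or.inl ⟨h, rfl⟩)) h3
  have hsymm : ∀ a b, Relation.ReflTransGen (fun a b => (a, b) ∈ F) a b →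
      Relation.ReflTransGen (fun a b => (a, b) ∈ F) b a := by
    intro a b h
    induction h with
    | refl => exact Relation.ReflTransGen.refl
    | tail _ h ih => exact Relation.ReflTransGen.head (hsymF _ _ h) ih
  refine ⟨F, ⟨?_, ?_, ?_, ?_⟩, ?_⟩
  · rintro ⟨a, b⟩ h
    rw [hmem] at h
    rcases h with ⟨h1, rfl⟩ | ⟨h1, rfl⟩
    · exact (hadj _ _).mp (par_spec H h1).1
    · exact (hadj _ _).mp (par_spec H h1).1.symm
  · rintro ⟨a, b⟩ h
    exact hsymF a b h
  · rintro ⟨a, b⟩ h
    have h1 := hconn _ a rfl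
    have h2 := hconn _ b rfl
    rw [root_adj H ((hadj a b).mpr h)] at h1
    exact h1.trans (hsymm _ _ h2)
  · rintro x A hxA hno ⟨u, v⟩ huv huA hvA hvx
    simp only at huA hvA hvx
    have hr : root H u = root H v := root_adj H ((hadj _ _).mpr huv)
    by_cases hR : root H u ∈ A
    · right
      intro y hyA hyx hxy
      have := side H (T := fun z => z ∉ A ∧ z ≠ x) (x := x) (R := root H u) (w₀ := v) ?_ ?_
        ⟨hvA, hvx⟩ hr.symm y ⟨hyA, hyx⟩ ((hadj _ _).mpr hxy)
      · rw [hmem]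
        exact Or.inr ⟨this.2, this.1⟩
      · rintro z ⟨hz1, hz2⟩ hzr
        have h1 := hno (z, par H z) ((hmem _ _).mpr (Or.inl ⟨hzr, rfl⟩))
        unfold Cross at h1
        simp only at h1
        by_cases h2 : par H z = x
        · exact Or.inr h2
        · left
          refine ⟨fun h3 => h1 (Or.inr ⟨h3, hz1, hz2⟩), h2⟩
      · exact fun h => h.1 hR
    · left
      intro y hyA hxy
      have := side H (T := fun z => z ∈ A) (x := x) (R := root H u) (w₀ := u) ?_ hR
        huA rfl y hyA ((hadj _ _).mpr hxy)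
      · rw [hmem]
        exact Or.inr ⟨this.2, this.1⟩
      · intro z hz hzr
        have h1 := hno (z, par H z) ((hmem _ _).mpr (Or.inl ⟨hzr, rfl⟩))
        unfold Cross at h1
        simp only at h1
        by_cases h2 : par H z = x
        · exact Or.inr h2
        · left
          by_contra h3
          exact h1 (Or.inl ⟨hz, h3, h2⟩)
  · obtain ⟨v₀⟩ := (inferInstance : Nonempty V)
    have hS : S.card + 1 ≤ Fintype.card V := by
      have : S.card < (Finset.univ : Finset V).card := by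
        apply Finset.card_lt_card
        rw [Finset.ssubset_univ_iff]
        intro hc
        have : root H v₀ ∈ S := by rw [hc]; exact Finset.mem_univ _
        exact (Finset.mem_filter.mp this).2 (root_root H v₀).symm
      rw [Finset.card_univ] at this
      omega
    have h1 : F.card ≤ S.card + S.card :=
      (Finset.card_union_le _ _).trans (Nat.add_le_add Finset.card_image_le Finset.card_image_le)
    omega

/-- two forests without crossing edges are impossible -/
theorem two_forests {G F F' : Finset (V × V)} (hF : IsForest G F)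
    (hsub : ∀ e ∈ F', e ∈ G ∧ e ∉ F) (hsym' : ∀ e ∈ F', e.swap ∈ F') {x : V} {A : Finset V}
    (hx : x ∉ A) (hno : ∀ e ∈ F, ¬ Cross x A e) (hno' : ∀ e ∈ F', ¬ Cross x A e) {e : V × V}
    (heG : e ∈ G) (h1 : e.1 ∈ A) (h2 : e.2 ∉ A) (h3 : e.2 ≠ x)
    (hc : Relation.ReflTransGen (fun a b => (a, b) ∈ F') e.1 e.2) : False := by
  have hA : ∃ y ∈ A, (x, y) ∈ F' := by
    by_contra hcon
    push Not at hcon
    have : ∀ a b, Relation.ReflTransGen (fun a b => (a, b) ∈ F') a b → a ∈ A → b ∈ A := by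
      intro a b hab ha
      induction hab with
      | refl => exact ha
      | @tail b c _ hbc ih =>
        by_contra hcA
        by_cases hcx : c = x
        · subst hcx
          exact hcon b ih (hsym' _ hbc)
        · exact hno' _ hbc (Or.inl ⟨ih, hcA, hcx⟩)
    exact h2 (this _ _ hc h1)
  have hB : ∃ y, y ∉ A ∧ y ≠ x ∧ (x, y) ∈ F' := by
    by_contra hcon
    push Not at hcon
    have : ∀ a b, Relation.ReflTransGen (fun a b => (a, b) ∈ F') a b → (a ∈ A ∨ a = x) →
        (b ∈ A ∨ b = x) := by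
      intro a b hab ha
      induction hab with
      | refl => exact ha
      | @tail b c _ hbc ih =>
        by_contra hcA
        rw [not_or] at hcA
        rcases ih with ih | ih
        · exact hno' _ hbc (Or.inl ⟨ih, hcA.1, hcA.2⟩)
        · subst ih
          exact hcon c hcA.1 hcA.2 hbc
    rcases this _ _ hc (Or.inl h1) with h | h
    · exact h2 h
    · exact h3 h
  obtain ⟨y, hy, hxy⟩ := hA
  obtain ⟨z, hz, hzx, hxz⟩ := hB
  rcases hF.kill x A hx hno e heG h1 h2 h3 with h | h
  · exact (hsub _ hxy).2 (h y hy (hsub _ hxy).1)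
  · exact (hsub _ hxz).2 (h z hz hzx (hsub _ hxz).1)

/-- the sparse certificate -/
theorem exists_certificate [Fintype V] [Nonempty V] (G : Finset (V × V))
    (hsym : ∀ e ∈ G, e.swap ∈ G) (hloop : ∀ e ∈ G, e.1 ≠ e.2) :
    ∃ C ⊆ G, (∀ e ∈ C, e.swap ∈ C) ∧ C.card + 6 ≤ 6 * Fintype.card V ∧
      ∀ (x : V) (A : Finset V), x ∉ A → ∀ e ∈ G, e ∉ C → Cross x A e → ∀ f,
        ∃ g ∈ G, Cross x A g ∧ g ≠ e ∧ g ≠ e.swap ∧ g ≠ f ∧ g ≠ f.swap := by
  have hsymD : ∀ G F : Finset (V × V), (∀ e ∈ G, e.swap ∈ G) → IsForest G F →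
      ∀ e ∈ G \ F, e.swap ∈ G \ F := by
    intro G F hG hF e he
    rw [Finset.mem_sdiff] at he ⊢
    refine ⟨hG _ he.1, fun h => he.2 ?_⟩
    have := hF.sym _ h
    rwa [Prod.swap_swap] at this
  obtain ⟨F₁, hF₁, hc₁⟩ := exists_forest G hsym hloop
  have hsym₂ := hsymD G F₁ hsym hF₁
  obtain ⟨F₂, hF₂, hc₂⟩ := exists_forest (G \ F₁) hsym₂
    fun e he => hloop e (Finset.mem_sdiff.mp he).1
  have hsym₃ := hsymD _ F₂ hsym₂ hF₂
  obtain ⟨F₃, hF₃, hc₃⟩ := exists_forest ((G \ F₁) \ F₂) hsym₃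
    fun e he => hloop e (Finset.mem_sdiff.mp (Finset.mem_sdiff.mp he).1).1
  have sub₂ : ∀ e ∈ F₂, e ∈ G ∧ e ∉ F₁ := fun e he => Finset.mem_sdiff.mp (hF₂.sub he)
  have sub₃ : ∀ e ∈ F₃, (e ∈ G ∧ e ∉ F₁) ∧ e ∉ F₂ := fun e he => by
    have := Finset.mem_sdiff.mp (hF₃.sub he)
    exact ⟨Finset.mem_sdiff.mp this.1, this.2⟩
  refine ⟨F₁ ∪ F₂ ∪ F₃, ?_, ?_, ?_, ?_⟩
  · intro e he
    simp only [Finset.mem_union] at he
    rcases he with (he | he) | he
    · exact hF₁.sub he
    · exact (sub₂ e he).1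
    · exact (sub₃ e he).1.1
  · intro e he
    simp only [Finset.mem_union] at he ⊢
    rcases he with (he | he) | he
    · exact Or.inl (Or.inl (hF₁.sym e he))
    · exact Or.inl (Or.inr (hF₂.sym e he))
    · exact Or.inr (hF₃.sym e he)
  · have h1 := Finset.card_union_le (F₁ ∪ F₂) F₃
    have h2 := Finset.card_union_le F₁ F₂
    omega
  · intro x A hx e heG heC hce f
    by_contra hcon
    push Not at hcon
    simp only [Finset.mem_union, not_or] at heC
    -- orient `e`
    have key : ∀ e ∈ G, e ∉ F₁ → e ∉ F₂ → e ∉ F₃ → e.1 ∈ A → e.2 ∉ A → e.2 ≠ x →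
        (∀ g ∈ G, Cross x A g → g ≠ e → g ≠ e.swap → g ≠ f → g = f.swap) → False := by
      intro e heG he1 he2 he3 hA1 hA2 hA3 hcon
      have hswap : ∀ F : Finset (V × V), (∀ e ∈ F, e.swap ∈ F) → e ∉ F → e.swap ∉ F := by
        intro F hF he hc
        have := hF _ hc
        rw [Prod.swap_swap] at this
        exact he this
      -- a forest with a crossing edge contains `f`
      have hf : ∀ F : Finset (V × V), (∀ e ∈ F, e.swap ∈ F) → (∀ e ∈ F, e ∈ G) → e ∉ F → f ∉ F →
          ∀ g ∈ F, ¬ Cross x A g := by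
        intro F hFs hFG heF hfF g hg hcg
        by_cases h1 : g = e
        · exact heF (h1 ▸ hg)
        by_cases h2 : g = e.swap
        · exact hswap F hFs heF (h2 ▸ hg)
        by_cases h3 : g = f
        · exact hfF (h3 ▸ hg)
        · have h4 := hcon g (hFG g hg) hcg h1 h2 h3
          have h5 := hFs g hg
          rw [h4, Prod.swap_swap] at h5
          exact hfF h5
      have hG₂ : e ∈ G \ F₁ := Finset.mem_sdiff.mpr ⟨heG, he1⟩
      have hG₃ : e ∈ (G \ F₁) \ F₂ := Finset.mem_sdiff.mpr ⟨hG₂, he2⟩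
      by_cases f1 : f ∈ F₁
      · have f2 : f ∉ F₂ := fun h => (sub₂ f h).2 f1
        have f3 : f ∉ F₃ := fun h => (sub₃ f h).1.2 f1
        exact two_forests hF₂ (fun g hg => ⟨Finset.mem_sdiff.mpr (sub₃ g hg).1, (sub₃ g hg).2⟩)
          hF₃.sym hx (hf F₂ hF₂.sym (fun g hg => (sub₂ g hg).1) he2 f2)
          (hf F₃ hF₃.sym (fun g hg => (sub₃ g hg).1.1) he3 f3) hG₂ hA1 hA2 hA3 (hF₃.conn e hG₃)
      · by_cases f2 : f ∈ F₂
        · have f3 : f ∉ F₃ := fun h => (sub₃ f h).2 f2
          exact two_forests hF₁ (fun g hg => (sub₃ g hg).1) hF₃.sym hx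
            (hf F₁ hF₁.sym (fun g hg => hF₁.sub hg) he1 f1)
            (hf F₃ hF₃.sym (fun g hg => (sub₃ g hg).1.1) he3 f3) heG hA1 hA2 hA3 (hF₃.conn e hG₃)
        · exact two_forests hF₁ (fun g hg => sub₂ g hg) hF₂.sym hx
            (hf F₁ hF₁.sym (fun g hg => hF₁.sub hg) he1 f1)
            (hf F₂ hF₂.sym (fun g hg => (sub₂ g hg).1) he2 f2) heG hA1 hA2 hA3 (hF₂.conn e hG₂)
    rcases hce with ⟨h1, h2, h3⟩ | ⟨h1, h2, h3⟩
    · exact key e heG heC.1.1 heC.1.2 heC.2 h1 h2 h3 hcon
    · have hsw : ∀ F : Finset (V × V), (∀ e ∈ F, e.swap ∈ F) → e ∉ F → e.swap ∉ F := by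
        intro F hF he hc
        have := hF _ hc
        rw [Prod.swap_swap] at this
        exact he this
      refine key e.swap (hsym _ heG) (hsw _ hF₁.sym heC.1.1) (hsw _ hF₂.sym heC.1.2)
        (hsw _ hF₃.sym heC.2) h1 h2 h3 ?_
      intro g hg hcg g1 g2
      rw [Prod.swap_swap] at g2
      exact hcon g hg hcg g2 g1

end Q125.Bic
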