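import Mathlib
import Pool.Agent.Q125.Bic.Defs
import Pool.Agent.Q125.Bic.Forest

set_option autoImplicit false

namespace Q125.Bic

variable {V : Type} [DecidableEq V]

theorem rho_pos_iff {E : Finset (V × V)} {X : Finset V} :
    1 ≤ rho E X ↔ ∃ e ∈ E, e.1 ∉ X ∧ e.2 ∈ X := by
  unfold rho
  rw [Nat.one_le_iff_ne_zero, Finset.card_ne_zero]
  constructor
  · rintro ⟨e, he⟩
    exact ⟨e, (Finset.mem_filter.mp he).1, (Finset.mem_filter.mp he).2⟩
  · rintro ⟨e, he, h⟩
    exact ⟨e, Finset.mem_filter.mpr ⟨he, h⟩⟩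

variable [Fintype V]

theorem strong_iff (E : Finset (V × V)) : StronglyConnected E ↔
    ∀ X : Finset V, X.Nonempty → X ≠ Finset.univ → ∃ e ∈ E, e.1 ∉ X ∧ e.2 ∈ X := by
  classical
  constructor
  · intro h X ⟨v, hv⟩ hne
    by_contra hcon
    push Not at hcon
    obtain ⟨u, hu⟩ : ∃ u, u ∉ X := by
      by_contra hc
      push Not at hc
      exact hne (Finset.eq_univ_iff_forall.mpr hc)
    have : ∀ a b, Relation.ReflTransGen (fun a b => (a, b) ∈ E) a b → a ∉ X → b ∉ X := by
      intro a b hab ha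
      induction hab with
      | refl => exact ha
      | tail _ hbc ih => exact hcon _ hbc ih
    exact this u v (h u v) hu hv
  · intro h u v
    by_contra hv
    let X : Finset V := Finset.univ.filter fun w =>
      ¬ Relation.ReflTransGen (fun a b => (a, b) ∈ E) u w
    obtain ⟨e, he, h1, h2⟩ := h X ⟨v, by simp [X, hv]⟩ (by
      intro hc
      have : u ∈ X := by rw [hc]; exact Finset.mem_univ u
      exact (Finset.mem_filter.mp this).2 Relation.ReflTransGen.refl)
    apply (Finset.mem_filter.mp h2).2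
    have h3 : Relation.ReflTransGen (fun a b => (a, b) ∈ E) u e.1 := by
      by_contra hc
      exact h1 (by simp [X, hc])
    exact h3.tail he

/-- the cut form of biconnectivity -/
def PCut (E : Finset (V × V)) : Prop :=
  ∀ (x : V) (A : Finset V), x ∉ A → A.Nonempty → (∃ b, b ∉ A ∧ b ≠ x) → ∃ e ∈ E, Cross x A e

omit [Fintype V] [DecidableEq V] in
theorem adj_iff {E : Finset (V × V)} {a b : V} :
    (underlying E).Adj a b ↔ a ≠ b ∧ ((a, b) ∈ E ∨ (b, a) ∈ E) := SimpleGraph.fromRel_adj _ _ _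

omit [Fintype V] in
theorem PCut_of {E : Finset (V × V)} (h : Biconnected (underlying E)) : PCut E := by
  intro x A hx ⟨a, ha⟩ ⟨b, hb, hbx⟩
  by_contra hcon
  push Not at hcon
  have hax : a ≠ x := fun h => hx (h ▸ ha)
  have hr := (h.2 x).preconnected ⟨a, hax⟩ ⟨b, hbx⟩
  rw [SimpleGraph.reachable_iff_reflTransGen] at hr
  have : ∀ s t : ({x}ᶜ : Set V), Relation.ReflTransGen ((underlying E).induce {x}ᶜ).Adj s t →
      s.1 ∈ A → t.1 ∈ A := by
    intro s t hst hs
    induction hst with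
    | refl => exact hs
    | @tail c d _ hcd ih =>
      rw [SimpleGraph.comap_adj, adj_iff] at hcd
      by_contra hd
      rcases hcd.2 with h1 | h1
      · exact hcon _ h1 (Or.inl ⟨ih, hd, d.2⟩)
      · exact hcon _ h1 (Or.inr ⟨ih, hd, d.2⟩)
  exact hb (this _ _ hr ha)

theorem biconnected_of {E : Finset (V × V)} (h3 : 3 ≤ Fintype.card V) (hs : StronglyConnected E)
    (hloop : ∀ e ∈ E, e.1 ≠ e.2) (h : PCut E) : Biconnected (underlying E) := by
  classical
  have hne : Nonempty V := Fintype.card_pos_iff.mp (by omega)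
  refine ⟨{ preconnected := ?_, nonempty := hne }, fun x => { preconnected := ?_, nonempty := ?_ }⟩
  · intro u v
    rw [SimpleGraph.reachable_iff_reflTransGen]
    refine Relation.ReflTransGen.mono ?_ _ _ (hs u v)
    intro a b hab
    exact adj_iff.mpr ⟨hloop _ hab, Or.inl hab⟩
  · intro u v
    by_contra hv
    let A : Finset V := Finset.univ.filter fun w =>
      ∃ hw : w ∈ ({x}ᶜ : Set V), ((underlying E).induce {x}ᶜ).Reachable u ⟨w, hw⟩
    have hxA : x ∉ A := by
      intro hc
      obtain ⟨hw, _⟩ := (Finset.mem_filter.mp hc).2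
      exact hw rfl
    have huA : u.1 ∈ A := by
      simp only [A, Finset.mem_filter, Finset.mem_univ, true_and]
      exact ⟨u.2, SimpleGraph.Reachable.refl _⟩
    have hvA : v.1 ∉ A := by
      intro hc
      obtain ⟨_, hw⟩ := (Finset.mem_filter.mp hc).2
      exact hv hw
    have hstep : ∀ c d, c ∈ A → d ≠ x → (underlying E).Adj c d → d ∈ A := by
      intro c d hc hd hcd
      obtain ⟨hcx, hrc⟩ := (Finset.mem_filter.mp hc).2
      simp only [A, Finset.mem_filter, Finset.mem_univ, true_and]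
      refine ⟨hd, hrc.trans ?_⟩
      apply SimpleGraph.Adj.reachable
      exact hcd
    obtain ⟨e, he, hce⟩ := h x A hxA ⟨_, huA⟩ ⟨v.1, hvA, v.2⟩
    rcases hce with ⟨h1, h2, h4⟩ | ⟨h1, h2, h4⟩
    · exact h2 (hstep _ _ h1 h4 (adj_iff.mpr ⟨hloop _ he, Or.inl he⟩))
    · exact h2 (hstep _ _ h1 h4 (adj_iff.mpr ⟨(hloop _ he).symm, Or.inr he⟩))
  · have : ∃ y, y ≠ x := by
      by_contra hc
      push Not at hc
      have : Fintype.card V ≤ 1 := Fintype.card_le_one_iff.mpr fun a b => (hc a).trans (hc b).symm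
      omega
    obtain ⟨y, hy⟩ := this
    exact ⟨⟨y, hy⟩⟩

/-- the cut form of 2-edge-strong biconnectivity -/
def Cuts (E : Finset (V × V)) : Prop :=
  (∀ X : Finset V, X.Nonempty → X ≠ Finset.univ →
    ∀ f, ∃ e ∈ E, e ≠ f ∧ e.1 ∉ X ∧ e.2 ∈ X) ∧
  (∀ (x : V) (A : Finset V), x ∉ A → A.Nonempty → (∃ b, b ∉ A ∧ b ≠ x) →
    ∀ f, ∃ e ∈ E, e ≠ f ∧ Cross x A e)

theorem cuts_of {E : Finset (V × V)} (h : TwoEdgeStronglyBiconnected E) : Cuts E := by
  obtain ⟨h1, _, h3⟩ := h
  have key : ∀ f, StronglyBiconnected (E.erase f) := by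
    intro f
    by_cases hf : f ∈ E
    · exact h3 f hf
    · rw [Finset.erase_eq_of_notMem hf]
      exact h1
  constructor
  · intro X hX hX' f
    obtain ⟨e, he, h4⟩ := (strong_iff _).mp (key f).1 X hX hX'
    exact ⟨e, Finset.mem_of_mem_erase he, Finset.ne_of_mem_erase he, h4⟩
  · intro x A hx hA hb f
    obtain ⟨e, he, h4⟩ := PCut_of (key f).2 x A hx hA hb
    exact ⟨e, Finset.mem_of_mem_erase he, Finset.ne_of_mem_erase he, h4⟩

theorem of_cuts {E : Finset (V × V)} (h3 : 3 ≤ Fintype.card V) (hloop : ∀ e ∈ E, e.1 ≠ e.2)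
    (h : Cuts E) : TwoEdgeStronglyBiconnected E := by
  have key : ∀ f, StronglyBiconnected (E.erase f) := by
    intro f
    have hs : StronglyConnected (E.erase f) := by
      rw [strong_iff]
      intro X hX hX'
      obtain ⟨e, he, hef, h4⟩ := h.1 X hX hX' f
      exact ⟨e, Finset.mem_erase.mpr ⟨hef, he⟩, h4⟩
    refine ⟨hs, biconnected_of h3 hs (fun e he => hloop e (Finset.mem_of_mem_erase he)) ?_⟩
    intro x A hx hA hb
    obtain ⟨e, he, hef, h4⟩ := h.2 x A hx hA hb f
    exact ⟨e, Finset.mem_erase.mpr ⟨hef, he⟩, h4⟩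
  have hs : StronglyConnected E := by
    intro u v
    refine Relation.ReflTransGen.mono ?_ _ _ ((key (u, u)).1 u v)
    intro a b hab
    exact Finset.mem_of_mem_erase hab
  refine ⟨⟨hs, biconnected_of h3 hs hloop ?_⟩, h3, fun e _ => key e⟩
  intro x A hx hA hb
  obtain ⟨e, he, _, h4⟩ := h.2 x A hx hA hb (x, x)
  exact ⟨e, he, h4⟩

theorem S2_univ_iff {E : Finset (V × V)} : S2 Finset.univ E ↔
    ∀ X : Finset V, X.Nonempty → X ≠ Finset.univ →
      ∀ f, ∃ e ∈ E, e ≠ f ∧ e.1 ∉ X ∧ e.2 ∈ X := by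
  constructor
  · intro h X hX hX' f
    have h1 := h X (Finset.subset_univ X) hX hX'
    obtain ⟨e, he, hef⟩ := Finset.exists_mem_ne (s := E.filter fun e => e.1 ∉ X ∧ e.2 ∈ X)
      (by unfold rho at h1; omega) f
    rw [Finset.mem_filter] at he
    exact ⟨e, he.1, hef, he.2⟩
  · intro h X _ hX hX'
    obtain ⟨v, hv⟩ := hX
    obtain ⟨e, he, _, h1⟩ := h X ⟨v, hv⟩ hX' (v, v)
    obtain ⟨f, hf, hfe, h2⟩ := h X ⟨v, hv⟩ hX' e
    have : 1 < (E.filter fun e => e.1 ∉ X ∧ e.2 ∈ X).card :=
      Finset.one_lt_card.mpr ⟨e, Finset.mem_filter.mpr ⟨he, h1⟩, f,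
        Finset.mem_filter.mpr ⟨hf, h2⟩, hfe.symm⟩
    exact this

theorem cross_compl {x : V} {A : Finset V} (hx : x ∉ A) {e : V × V} :
    Cross x ((Finset.univ \ A).erase x) e ↔ Cross x A e := by
  unfold Cross
  simp only [Finset.mem_erase, Finset.mem_sdiff, Finset.mem_univ, true_and]
  constructor
  · rintro (⟨⟨a, b⟩, c, d⟩ | ⟨⟨a, b⟩, c, d⟩)
    · right
      refine ⟨?_, b, a⟩
      by_contra hc
      exact c ⟨d, hc⟩
    · left
      refine ⟨?_, b, a⟩
      by_contra hc
      exact c ⟨d, hc⟩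
  · rintro (⟨a, b, c⟩ | ⟨a, b, c⟩)
    · right
      refine ⟨⟨c, b⟩, fun h => h.2 a, fun h => hx (h ▸ a)⟩
    · left
      refine ⟨⟨c, b⟩, fun h => h.2 a, fun h => hx (h ▸ a)⟩

theorem main (E : Finset (V × V)) (hloop : ∀ e ∈ E, e.1 ≠ e.2) (hmin : IsMinimal E) :
    E.card + 8 ≤ 7 * Fintype.card V := by
  classical
  have h3 := hmin.1.2.1
  have hcuts := cuts_of hmin.1
  have hS2E : S2 Finset.univ E := S2_univ_iff.mpr hcuts.1
  -- a minimal 2-arc-strong subdigraph
  obtain ⟨H, hH, hHmin⟩ := Finset.exists_min_image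
    (E.powerset.filter fun H => S2 Finset.univ H) Finset.card
    ⟨E, Finset.mem_filter.mpr ⟨Finset.mem_powerset.mpr (Finset.Subset.refl E), hS2E⟩⟩
  obtain ⟨hHE, hHS⟩ := Finset.mem_filter.mp hH
  rw [Finset.mem_powerset] at hHE
  have hWH : Within Finset.univ H := fun e he => ⟨Finset.mem_univ _, Finset.mem_univ _,
    hloop e (hHE he)⟩
  have hCrit : Crit Finset.univ H := by
    intro e he
    have h1 : ¬ S2 Finset.univ (H.erase e) := by
      intro hc
      have := hHmin (H.erase e) (Finset.mem_filter.mpr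
        ⟨Finset.mem_powerset.mpr ((Finset.erase_subset _ _).trans hHE), hc⟩)
      rw [Finset.card_erase_of_mem he] at this
      have := Finset.card_pos.mpr ⟨e, he⟩
      omega
    unfold S2 at h1
    push Not at h1
    obtain ⟨X, hX, hXne, hXne', hlt⟩ := h1
    have h2 := hHS X hX hXne hXne'
    have hent : e.1 ∉ X ∧ e.2 ∈ X := by
      by_contra hc
      have : rho (H.erase e) X = rho H X := by
        unfold rho
        rw [Finset.filter_erase, Finset.erase_eq_of_notMem]
        intro hh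
        exact hc (Finset.mem_filter.mp hh).2
      omega
    refine ⟨X, hX, hent.1, hent.2, ?_⟩
    have : rho (H.erase e) X = rho H X - 1 := by
      unfold rho
      rw [Finset.filter_erase, Finset.card_erase_of_mem (Finset.mem_filter.mpr ⟨he, hent⟩)]
    omega
  -- the arcs outside `H` are critical for the cut condition of the underlying graph
  have hfail : ∀ d ∈ E \ H, ∃ (x : V) (A : Finset V), x ∉ A ∧ Cross x A d ∧
      ∃ f, ∀ g ∈ E, Cross x A g → g = d ∨ g = f := by
    intro d hd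
    rw [Finset.mem_sdiff] at hd
    have h1 := hmin.2 d hd.1
    have h2 : ¬ Cuts (E.erase d) := fun hc =>
      h1 (of_cuts h3 (fun e he => hloop e (Finset.mem_of_mem_erase he)) hc)
    have h4 : ∀ X : Finset V, X.Nonempty → X ≠ Finset.univ →
        ∀ f, ∃ e ∈ E.erase d, e ≠ f ∧ e.1 ∉ X ∧ e.2 ∈ X := by
      intro X hX hX' f
      obtain ⟨e, he, h5⟩ := S2_univ_iff.mp hHS X hX hX' f
      exact ⟨e, Finset.mem_erase.mpr ⟨fun h => hd.2 (h ▸ he), hHE he⟩, h5⟩
    unfold Cuts at h2
    rw [not_and] at h2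
    have h5 := h2 h4
    push Not at h5
    obtain ⟨x, A, hxA, hA, hb, f, hf⟩ := h5
    refine ⟨x, A, hxA, ?_, f, ?_⟩
    · obtain ⟨g, hg, hgf, hcg⟩ := hcuts.2 x A hxA hA hb f
      by_cases hgd : g = d
      · rwa [← hgd]
      · exact absurd hcg (hf g (Finset.mem_erase.mpr ⟨hgd, hg⟩) hgf)
    · intro g hg hcg
      by_contra hc
      rw [not_or] at hc
      exact hf g (Finset.mem_erase.mpr ⟨hc.1, hg⟩) hc.2 hcg
  set Q := E \ H with hQ
  set K := Q.filter fun e => e.swap ∈ Q with hK
  have hKP : KProp Finset.univ H K := by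
    intro d hd
    rw [hK, Finset.mem_filter] at hd
    obtain ⟨x, A, hxA, hcd, f, hf⟩ := hfail d hd.1
    have hdE := (Finset.mem_sdiff.mp hd.1).1
    have hsE := (Finset.mem_sdiff.mp hd.2).1
    have hfd : f = d.swap := by
      rcases hf _ hsE hcd.swap with h | h
      · exfalso
        apply hloop d hdE
        have := congrArg Prod.snd h
        simpa using this
      · exact h.symm
    rw [hfd] at hf
    have hnoH : ∀ e ∈ H, ¬ Cross x A e := by
      intro e he hce
      rcases hf e (hHE he) hce with h | h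
      · exact (Finset.mem_sdiff.mp hd.1).2 (h ▸ he)
      · exact (Finset.mem_sdiff.mp hd.2).2 (h ▸ he)
    rcases hcd with ⟨h1, h2, h4⟩ | ⟨h1, h2, h4⟩
    · refine ⟨x, Finset.mem_univ x, A, Finset.subset_univ A, hxA, h1, h2, h4, hnoH, ?_⟩
      intro d' hd' hc'
      exact hf d' (Finset.mem_sdiff.mp (Finset.mem_filter.mp hd').1).1 hc'
    · refine ⟨x, Finset.mem_univ x, (Finset.univ \ A).erase x, Finset.subset_univ _,
        by simp, ?_, ?_, fun h => hxA (h ▸ h1), ?_, ?_⟩
      · simp [h2, h4]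
      · simp [h1]
      · intro e he hce
        exact hnoH e he ((cross_compl hxA).mp hce)
      · intro d' hd' hc'
        exact hf d' (Finset.mem_sdiff.mp (Finset.mem_filter.mp hd').1).1 ((cross_compl hxA).mp hc')
  have hWK : Within Finset.univ K := fun e he => ⟨Finset.mem_univ _, Finset.mem_univ _,
    hloop e (Finset.mem_sdiff.mp (Finset.mem_filter.mp he).1).1⟩
  have hb1 := bound (Fintype.card V) Finset.univ H K Finset.card_univ
    (by rw [Finset.card_univ]; omega) hWH hHS hCrit hWK hKP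
  rw [Finset.card_univ] at hb1
  -- the certificate
  have hne : Nonempty V := Fintype.card_pos_iff.mp (by omega)
  obtain ⟨C, _, hCsym, hCcard, hCP⟩ := exists_certificate (E ∪ rev E) (by
      intro e he
      rw [Finset.mem_union, mem_rev] at he ⊢
      rw [Prod.swap_swap]
      exact he.symm) (by
      intro e he
      rw [Finset.mem_union, mem_rev] at he
      rcases he with he | he
      · exact hloop e he
      · have := hloop _ he
        simpa using this.symm)
  have hQC : Q ⊆ C := by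
    intro d hd
    by_contra hdC
    obtain ⟨x, A, hxA, hcd, f, hf⟩ := hfail d hd
    have hdE := (Finset.mem_sdiff.mp hd).1
    obtain ⟨g, hg, hcg, g1, g2, g3, g4⟩ :=
      hCP x A hxA d (Finset.mem_union_left _ hdE) hdC hcd f
    rw [Finset.mem_union, mem_rev] at hg
    rcases hg with hg | hg
    · rcases hf g hg hcg with h | h
      · exact g1 h
      · exact g3 h
    · rcases hf _ hg hcg.swap with h | h
      · exact g2 (by rw [← h, Prod.swap_swap])
      · exact g4 (by rw [← h, Prod.swap_swap])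
  have hQC' : Q ∪ rev Q ⊆ C := by
    intro e he
    rcases Finset.mem_union.mp he with h | h
    · exact hQC h
    · have := hCsym _ (hQC (mem_rev.mp h))
      rwa [Prod.swap_swap] at this
  have hcard := Finset.card_union_add_card_inter Q (rev Q)
  have hrev : (rev Q).card = Q.card := Finset.card_image_of_injective _ Prod.swap_injective
  have hinter : Q ∩ rev Q = K := by
    ext e
    rw [Finset.mem_inter, mem_rev, hK, Finset.mem_filter]
  rw [hinter, hrev] at hcard
  have h6 := Finset.card_le_card hQC'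
  have h7 : Q.card + H.card = E.card := by
    rw [hQ]
    exact Finset.card_sdiff_add_card_eq_card hHE
  omega

end Q125.Bic
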